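import Pool.Agent.Hmk.CnJ
import Pool.Agent.Hmk.Up
import Pool.Agent.Hmk.TfG
import Pool.Agent.Hmk.TfH

/-!
# MP_161523_pr, Q2 : the Gaussian free field is the scaling limit of uniform Lipschitz functions

`D n` are the free vertices of lattice domains of mesh `δ n → 0` which approximate the bounded open
set `Ω` from inside, `β n` the boundary data, `cond volume (K (D n) (β n))` the uniform law on the
admissible height functions, `XF (D n) (δ n) φ h` the height function tested against `φ`, `GB Ω` the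
Green form `∫∫ φ G_Ω ψ`.
-/

set_option autoImplicit false

open MeasureTheory ProbabilityTheory Set Filter
open scoped Topology

noncomputable section

namespace Pool.Agent.Results.MP_161523_pr.FreeField

open Pool.Agent.Hmk Pool.Agent.Hmk.Cn

theorem result : ∃ s : ℝ, 0 < s ∧ ∀ Ω : Set ℂ, IsOpen Ω → Bornology.IsBounded Ω →
    ∀ (δ : ℕ → ℝ) (D : ℕ → Finset (ℤ × ℤ)), Appr Ω δ D →
    ∀ β : ℕ → ℤ × ℤ → ℝ, (∀ n z, |β n z| ≤ 1 / 2) →
    ∀ (m : ℕ) (φ : Fin m → ℂ → ℝ), (∀ i, CSC Ω (φ i)) →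
    (Matrix.of fun i j => s * GB Ω (φ i) (φ j)).PosSemidef ∧
    (∀ f : BoundedContinuousFunction (EuclideanSpace ℝ (Fin m)) ℝ,
      Tendsto (fun n => ∫ h, f (WithLp.toLp 2 fun i => XF (D n) (δ n) (φ i) h -
        ∫ k, XF (D n) (δ n) (φ i) k ∂(cond volume (K (D n) (β n)))) ∂(cond volume (K (D n) (β n)))) atTop
        (𝓝 (∫ y, f y ∂(multivariateGaussian 0
          (Matrix.of fun i j => s * GB Ω (φ i) (φ j)))))) ∧
    ∀ l : ℝ, 0 < l → l ≤ 1 / 2 → ∀ a b : ℂ, a ≠ b → ∀ A₁ A₂ : Set ℂ, IsClosed A₁ →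
      IsClosed A₂ → A₁ ∩ A₂ ⊆ {a, b} → frontier Ω ⊆ A₁ ∪ A₂ → Arcs l A₁ A₂ δ D β →
      ∀ u : ℂ → ℝ, InnerProductSpace.HarmonicOnNhd u Ω → (∀ z ∈ Ω, |u z| ≤ l) →
      (∀ ζ ∈ (A₁ ∩ frontier Ω) \ {a, b}, Tendsto u (𝓝[Ω] ζ) (𝓝 l)) →
      (∀ ζ ∈ (A₂ ∩ frontier Ω) \ {a, b}, Tendsto u (𝓝[Ω] ζ) (𝓝 (- l))) →
      ∀ f : BoundedContinuousFunction (EuclideanSpace ℝ (Fin m)) ℝ,
        Tendsto (fun n => ∫ h, f (WithLp.toLp 2 fun i => XF (D n) (δ n) (φ i) h)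
          ∂(cond volume (K (D n) (β n)))) atTop
          (𝓝 (∫ y, f y ∂(multivariateGaussian (WithLp.toLp 2 fun i => ∫ z, u z * φ i z)
            (Matrix.of fun i j => s * GB Ω (φ i) (φ j))))) := by
  obtain ⟨σ, h0, hS, hU⟩ := facts
  obtain ⟨hσ, hI⟩ := itf_pos h0 (trial h0 hS) hU
  refine ⟨σ / Real.sqrt 3, by positivity, fun Ω hΩ hb δ D hA β hβ m φ hφ => ?_⟩
  exact ⟨GB_pos hb hφ (by positivity), gff_joint hσ hI hΩ hb hA hβ hφ⟩

end Pool.Agent.Results.MP_161523_pr.FreeField
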