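import Pool.Agent.Hmk.CaG
import Pool.Agent.Hmk.Up
import Pool.Agent.Hmk.TfG
import Pool.Agent.Hmk.TfH

/-!
# MP_161523_pr, Q2 : the Gaussian free field is the scaling limit of uniform Lipschitz functions

`W n` is the domain bounded by the simple closed path `γ n` in the triangular lattice of mesh `δ n`,
`D n` the set of vertices in `W n`, `β n = ± l` the boundary data on the two arcs, `f n` the conformal
map of the strip `0 < Re w < 1` onto `W n` which maps its two sides to the two arcs, `g n` its inverse.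
`f n` converges locally uniformly to the conformal map `f₀` of the strip onto `Ω` (Caratheodory
convergence of the domains with two marked prime ends).  `cond volume (K (D n) (β n))` is the uniform
law on the admissible height functions, `XF (D n) (δ n) φ h` the height function tested against `φ`,
`GB Ω` the Green form `∫∫ φ G_Ω ψ`, `l (2 Re g₀ - 1)` the harmonic function with boundary values `± l`.
-/

set_option autoImplicit false

open MeasureTheory ProbabilityTheory Set Filter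
open scoped Topology

noncomputable section

namespace Pool.Agent.Results.MP_161523_pr.FreeFieldConformal

open Pool.Agent.Hmk Pool.Agent.Hmk.Cn Pool.Agent.Hmk.Ca

theorem result : ∃ s : ℝ, 0 < s ∧ ∀ l : ℝ, 0 < l → l ≤ 1 / 2 →
    ∀ (Ω : Set ℂ) (f₀ g₀ : ℂ → ℂ), Bih Sp Ω f₀ g₀ →
    ∀ (R : ℝ) (W : ℕ → Set ℂ) (f g : ℕ → ℂ → ℂ) (δ : ℕ → ℝ) (N : ℕ → ℕ) (γ : ℕ → ℕ → ℤ × ℤ)
      (D : ℕ → Finset (ℤ × ℤ)) (β : ℕ → ℤ × ℤ → ℝ),
    (∀ n, 0 < δ n) → Tendsto δ atTop (𝓝 0) → (∀ n, ∀ z ∈ W n, ‖z‖ ≤ R) →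
    (∀ n, Bih Sp (W n) (f n) (g n)) → TendstoLocallyUniformlyOn f f₀ atTop Sp →
    (∀ n, Dom l (W n) (g n) (δ n) (N n) (γ n) (D n) (β n)) → (∀ n z, |β n z| ≤ 1 / 2) →
    ∀ (m : ℕ) (φ : Fin m → ℂ → ℝ), (∀ i, CSC Ω (φ i)) →
    (Matrix.of fun i j => s * GB Ω (φ i) (φ j)).PosSemidef ∧
    ∀ F : BoundedContinuousFunction (EuclideanSpace ℝ (Fin m)) ℝ,
      Tendsto (fun n => ∫ h, F (WithLp.toLp 2 fun i => XF (D n) (δ n) (φ i) h)
        ∂(cond volume (K (D n) (β n)))) atTop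
        (𝓝 (∫ y, F y ∂(multivariateGaussian
          (WithLp.toLp 2 fun i => ∫ z, l * (2 * (g₀ z).re - 1) * φ i z)
          (Matrix.of fun i j => s * GB Ω (φ i) (φ j))))) := by
  obtain ⟨σ, h0, hS, hU⟩ := facts
  obtain ⟨hσ, hI⟩ := itf_pos h0 (trial h0 hS) hU
  refine ⟨σ / Real.sqrt 3, by positivity, fun l hl0 hl Ω f₀ g₀ hB0 R W f g δ N γ D β hδ hlim hR hB
    hc hD hβ m φ hφ => ⟨?_, fun F => ?_⟩⟩
  · exact GB_pos (sq_of_dom hB0 hδ hlim hB hR hc hD).bd0 hφ (by positivity)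
  · exact gff_cara hσ hI hl0 hl hB0 hδ hlim hB hR hc hD hβ hφ F

end Pool.Agent.Results.MP_161523_pr.FreeFieldConformal
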