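import Pool.Agent.Hmk.CfL

/-!
# MP_161523_pr : two-sided Gaussian free field bounds for uniform Lipschitz functions on the
triangular lattice

`D` is the finite set of free vertices, `b` the boundary data, `K D b` the set of all admissible
configurations, `volume[|K D b]` the uniform law on it, `Lap` the positive graph Laplacian of the
triangular lattice, so that `∑ x ∈ D, ψ x * Lap ψ x` is the Dirichlet energy of a function `ψ` which
vanishes off `D`.
-/

namespace Pool.Agent.Results.MP_161523_pr.TwoSided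

open MeasureTheory ProbabilityTheory Hmk

theorem result : ∃ c C : ℝ, 0 < c ∧ 0 < C ∧ ∀ (D : Finset (ℤ × ℤ)) (b : ℤ × ℤ → ℝ),
    (∀ z, |b z| ≤ 1 / 2) →
    (∀ ψ : ℤ × ℤ → ℝ, (∀ z ∉ D, ψ z = 0) →
      c * ∑ x ∈ D, ψ x * Lap ψ x ≤
        variance (fun h : D → ℝ => ∑ x : D, Lap ψ x * h x) (cond volume (K D b)) ∧
      variance (fun h : D → ℝ => ∑ x : D, Lap ψ x * h x) (cond volume (K D b)) ≤
        C * ∑ x ∈ D, ψ x * Lap ψ x) ∧
    (∀ a φ : ℤ × ℤ → ℝ, (∀ z ∉ D, φ z = 0) →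
      (∑ x ∈ D, a x * φ x) ^ 2 ≤ C * (∑ x ∈ D, φ x * Lap φ x) *
        variance (fun h : D → ℝ => ∑ x : D, a x * h x) (cond volume (K D b))) ∧
    (∀ (x : ℤ × ℤ) (R : ℕ), 1 ≤ R → (∀ z, dn (z - x) ≤ R → z ∈ D) →
      c * Real.log R ≤ variance (fun h : D → ℝ => gl D b h x) (cond volume (K D b))) := by
  obtain ⟨c₁, hc₁, H1⟩ := FG_var_ge
  obtain ⟨C₂, hC₂, H2⟩ := FG_var_le
  obtain ⟨C₃, hC₃, H3⟩ := dual_ge
  obtain ⟨C₄, hC₄, H4⟩ := log_cut
  have gsum : ∀ (D : Finset (ℤ × ℤ)) (b a : ℤ × ℤ → ℝ) (h : D → ℝ),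
      ∑ x ∈ D, a x * gl D b h x = ∑ x : D, a x * h x := by
    intro D b a h
    rw [← Finset.sum_coe_sort]
    refine Finset.sum_congr rfl fun x _ => ?_
    simp [gl]
  have two : ∀ (D : Finset (ℤ × ℤ)) (ψ : ℤ × ℤ → ℝ), (∀ z ∉ D, ψ z = 0) →
      ∑ x ∈ D, ψ x * Lap ψ x ≤ 4 * EG D ψ := by
    intro D ψ hψ
    have h1 := lap_ge hψ
    have h2 := lap_cs hψ hψ
    have h3 := EG_nonneg D ψ
    rcases h3.eq_or_lt with h0 | h0
    · rw [← h0] at h2 ⊢
      nlinarith
    · by_contra hc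
      push Not at hc
      nlinarith
  refine ⟨min (c₁ / 4) (1 / ((C₃ + 1) * (C₄ + 1))), C₂ + C₃ + 1, ?_, by positivity,
    fun D b hb => ⟨fun ψ hψ => ?_, fun a φ hφ => ?_, fun x R hR hD => ?_⟩⟩
  · exact lt_min (by positivity) (by positivity)
  · have e : (fun h : D → ℝ => ∑ x : D, Lap ψ x * h x) = FG D b ψ := by
      funext h
      exact (gsum D b (Lap ψ) h).symm
    rw [e]
    have hE := EG_nonneg D ψ
    have h1 := lap_ge hψ
    have h2 := two D ψ hψ
    have hQ : 0 ≤ ∑ x ∈ D, ψ x * Lap ψ x := hE.trans h1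
    constructor
    · refine le_trans ?_ (H1 D b hb ψ hψ)
      calc min (c₁ / 4) (1 / ((C₃ + 1) * (C₄ + 1))) * ∑ x ∈ D, ψ x * Lap ψ x ≤
          c₁ / 4 * ∑ x ∈ D, ψ x * Lap ψ x := mul_le_mul_of_nonneg_right (min_le_left _ _) hQ
        _ ≤ c₁ * EG D ψ := by nlinarith
    · refine (H2 D b hb ψ hψ).trans ?_
      nlinarith
  · have h1 := H3 D b hb a φ hφ
    have e : (fun h : D → ℝ => ∑ x ∈ D, a x * gl D b h x) = fun h => ∑ x : D, a x * h x := by
      funext h
      exact gsum D b a h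
    rw [e] at h1
    refine h1.trans (mul_le_mul_of_nonneg_right ?_ (variance_nonneg _ _))
    have hE := EG_nonneg D φ
    have h2 := lap_ge hφ
    nlinarith
  · obtain ⟨φ, hφ1, hφ0, hφE⟩ := H4 x R hR D hD
    have hx : x ∈ D := hD x (by simp [dn])
    have h1 := H3 D b hb (fun z => if z = x then 1 else 0) φ hφ0
    have e1 : ∑ z ∈ D, (if z = x then (1 : ℝ) else 0) * φ z = 1 := by
      simp [hx, hφ1]
    have e2 : (fun h : D → ℝ => ∑ z ∈ D, (if z = x then (1 : ℝ) else 0) * gl D b h z) =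
        fun h => gl D b h x := by
      funext h
      simp [hx]
    rw [e1, e2] at h1
    set V := variance (fun h : D → ℝ => gl D b h x) (Mu D b) with hV
    have hV0 : 0 ≤ V := variance_nonneg _ _
    have hE := EG_nonneg D φ
    have hR1 : (1 : ℝ) ≤ R := by exact_mod_cast hR
    have hl0 : 0 ≤ Real.log R := Real.log_nonneg hR1
    have hl : Real.log R ≤ Real.log ((R : ℝ) + 1) := Real.log_le_log (by linarith) (by linarith)
    have h2 : Real.log R ≤ (C₃ + 1) * (C₄ + 1) * V := by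
      have h3 : Real.log R ≤ Real.log R * (C₃ * EG D φ * V) := by nlinarith
      have h4 : Real.log R * (C₃ * EG D φ * V) ≤ C₃ * V * C₄ := by
        have : Real.log R * EG D φ ≤ C₄ := by nlinarith
        calc Real.log R * (C₃ * EG D φ * V) = C₃ * V * (Real.log R * EG D φ) := by ring
          _ ≤ C₃ * V * C₄ := mul_le_mul_of_nonneg_left this (by positivity)
      nlinarith [mul_nonneg hC₃ hV0, mul_nonneg hC₄ hV0]
    calc min (c₁ / 4) (1 / ((C₃ + 1) * (C₄ + 1))) * Real.log R ≤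
        1 / ((C₃ + 1) * (C₄ + 1)) * Real.log R := mul_le_mul_of_nonneg_right (min_le_right _ _) hl0
      _ ≤ V := by
        rw [div_mul_eq_mul_div, one_mul, div_le_iff₀ (by positivity)]
        linarith

end Pool.Agent.Results.MP_161523_pr.TwoSided
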