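import Pool.Agent.Hmk.Var

/-!
# MP_161523_pr : Brascamp-Lieb inequality for uniform Lipschitz functions on the triangular lattice

`D` is the finite set of free vertices, `b` the boundary data, `K D b` the set of all admissible
configurations, `volume[|K D b]` the uniform law on it.
-/

namespace Pool.Agent.Results.MP_161523_pr.VarianceUpper

open MeasureTheory ProbabilityTheory Hmk

theorem result : ∃ C : ℝ, 0 ≤ C ∧ ∀ (D : Finset (ℤ × ℤ)) (b : ℤ × ℤ → ℝ),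
    (∀ z, |b z| ≤ 1 / 2) →
    IsProbabilityMeasure (cond volume (K D b)) ∧
    (∀ z, MemLp (fun h : D → ℝ => gl D b h z) 2 (cond volume (K D b))) ∧
    (∀ z, |∫ h : D → ℝ, gl D b h z ∂(cond volume (K D b))| ≤ 1 / 2) ∧
    (∀ t : ℤ × ℤ → Fin 6 → ℝ,
      variance (fun h : D → ℝ => ∑ x ∈ D, ∑ i, t x i * (gl D b h x - gl D b h (x + st i)))
        (cond volume (K D b)) ≤ C * ∑ x ∈ D, ∑ i, (t x i) ^ 2) ∧
    (∀ (x : ℤ × ℤ) (R : ℕ), 1 ≤ R → (∀ z ∈ D, dn (z - x) ≤ R) →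
      variance (fun h : D → ℝ => gl D b h x) (cond volume (K D b)) ≤
        C * (1 + Real.log R)) ∧
    (∀ n : ℕ, 1 ≤ n → (∀ z ∈ D, |z.1| ≤ n ∧ |z.2| ≤ n) →
      ∀ a : ℤ × ℤ → ℝ, (∀ z, |a z| ≤ 1 / (n : ℝ) ^ 2) →
        ∫ h : D → ℝ, (∑ x : D, a x * h x) ^ 2 ∂(cond volume (K D b)) ≤ C) := by
  obtain ⟨C, hC0, hC⟩ := var_main
  refine ⟨162 * C + 81 / 4 + 4 * C, by positivity, fun D b hb => ⟨prob hb, gl_memLp hb,
    mean_le hb, fun t => ?_, fun x R hR hD => ?_, fun n hn hD a ha => ?_⟩⟩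
  · refine (hC D b hb t).trans ?_
    have hs : 0 ≤ ∑ x ∈ D, ∑ i, (t x i) ^ 2 :=
      Finset.sum_nonneg fun _ _ => Finset.sum_nonneg fun _ _ => sq_nonneg _
    nlinarith [mul_nonneg hC0 hs]
  · obtain ⟨t, ht, hs⟩ := sector D x R hD
    obtain ⟨c, hc⟩ := ht b
    refine (var_of hC hb hc).trans ?_
    have hR1 : (1 : ℝ) ≤ R := by exact_mod_cast hR
    have hl : Real.log ((R : ℝ) + 1) ≤ 1 + Real.log R := by
      have h2 : Real.log ((R : ℝ) + 1) ≤ Real.log (2 * R) :=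
        Real.log_le_log (by linarith) (by linarith)
      rw [Real.log_mul (by norm_num) (by linarith)] at h2
      have := Real.log_two_lt_d9
      linarith
    have hl0 : 0 ≤ Real.log R := Real.log_nonneg hR1
    have h1 : C * ∑ x ∈ D, ∑ i, (t x i) ^ 2 ≤ C * (2 * (1 + Real.log ((R : ℝ) + 1))) :=
      mul_le_mul_of_nonneg_left hs hC0
    have h3 : C * (2 * (1 + Real.log ((R : ℝ) + 1))) ≤ C * (4 * (1 + Real.log R)) :=
      mul_le_mul_of_nonneg_left (by linarith) hC0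
    have h4 : 0 ≤ C * (1 + Real.log R) := mul_nonneg hC0 (by linarith)
    nlinarith
  · obtain ⟨t, ht, hs⟩ := right_flow D n hn hD a ha
    obtain ⟨c, hc⟩ := ht b
    have h1 := var_of hC hb hc
    have h2 : C * ∑ x ∈ D, ∑ i, (t x i) ^ 2 ≤ C * 162 := mul_le_mul_of_nonneg_left hs hC0
    refine (second_le hb hn hD ha (h1.trans h2)).trans ?_
    linarith

end Pool.Agent.Results.MP_161523_pr.VarianceUpper
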